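import Pool.Agent.R205.TD.F

/-!
# Multiple averages converge almost everywhere for almost every time change of an arbitrary system

`(Y, μ, S)` is an arbitrary invertible measure preserving system on a standard Borel probability space, not
necessarily ergodic, without periodic points (up to a null set).

For a measurable height function `h : Y → ℕ`, `h ≥ 1`, the tower (time change, integral automorphism) over `S` with
heights `h` is the map `(y, l) ↦ (y, l + 1)` if `l + 1 < h y` and `(y, l) ↦ (S y, 0)` otherwise, on the set of the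
points `(y, l)` with `l < h y`; the normalized restriction of `μ × counting` is an invariant probability measure, and
`S` is the transformation induced on the base `Y × {0}`.

The theorem: for every `ε > 0` there is a measurable `ξ : Y → ℕ` with `μ {ξ ≠ 0} ≤ ε`, that is, a countable measurable
partition of a set of measure at most `ε`, such that for every bounded height function `h₀` the following holds.
Raise the heights `h₀` by one on a random union of the pieces `ξ = i`, `i ≥ 1` (the piece `ξ = i` is raised or not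
according to an independent fair coin `θ i`). Then with probability one the tower `T` over `S` satisfies: for all
`0 < a_1 < ⋯ < a_m` and all bounded measurable `f_1, …, f_m` on the tower, the averages
`(1/N) ∑_{n=1}^N f_1(T^(a_1 n) z) ⋯ f_m(T^(a_m n) z)` converge for almost every point `z` of the tower, and their limit is
the product of the conditional expectations of the `f_j` onto the `T`-invariant sets. Moreover, for every bounded
sequence of measurable weights `w_n(y)` given in advance, the averages of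
`w_n(y) (f_1(T^(a_1 n) z) ⋯ f_m(T^(a_m n) z) - E(f_1)(z) ⋯ E(f_m)(z))`, `z = (y, l)`, tend to zero almost everywhere.
The base `Y × {0}` of the tower has measure at least `1/(1+ε)` if `h₀ = 1`.

Proof. Labels `ξ` which do not repeat along long pieces of orbits provide, at all large scales, in every window of
length `N^(1/2)` of the orbit of almost every point `y`, a column whose coin is not used elsewhere in the range `N^D`
(`Pool.Agent.R205.TD.exists_labels2`). Raising a column by one delays everything behind it by one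
(`Pool.Agent.R205.TC.pos_shift`). So conditionally on everything up to the time `p` the position at a time `q > p` is
the result of many independent fair delays, and its distribution is nearly the same as that at the time `q + 1`
(`Pool.Agent.R205.TC.corr`). A second moment argument for a fixed point `y` (`Pool.Agent.R205.TD.star`) and Fubini's
theorem show that in the averages the function `f_m` may be replaced by its shifts, hence by its ergodic averages, hence
by its conditional expectation. A countable family dense in `L¹` and the pointwise ergodic theorem give all bounded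
functions at once.
-/

set_option autoImplicit false

open MeasureTheory Filter Topology
open scoped ENNReal

namespace Pool.Agent.Results.MP_cc859a_an.AlmostEveryTimeChange

universe u

/-- the fair coin -/
noncomputable def coin : Measure Bool := (2⁻¹ : ℝ≥0∞) • (Measure.dirac false + Measure.dirac true)

instance : IsProbabilityMeasure coin :=
  inferInstanceAs (IsProbabilityMeasure Pool.Agent.R205.TC.coin)

/-- the heights `h₀`, raised by one on the pieces `ξ = i`, `i ≥ 1`, with `θ i = true` -/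
def heights {Y : Type u} (h₀ ξ : Y → ℕ) (θ : ℕ → Bool) (y : Y) : ℕ := h₀ y + if ξ y = 0 then 0 else (θ (ξ y)).toNat

/-- the points of the tower with heights `h` -/
def points {Y : Type u} (h : Y → ℕ) : Set (Y × ℕ) := {z | z.2 < h z.1}

/-- the tower (time change) over `S` with heights `h` -/
def tower {Y : Type u} (S : Y → Y) (h : Y → ℕ) (z : Y × ℕ) : Y × ℕ :=
  if z.2 + 1 < h z.1 then (z.1, z.2 + 1) else (S z.1, 0)

/-- the normalized restriction of `μ × counting` to the points of the tower -/
noncomputable def towerMeasure {Y : Type u} [MeasurableSpace Y] (μ : Measure Y) (h : Y → ℕ) : Measure (Y × ℕ) :=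
  ((μ.prod Measure.count) (points h))⁻¹ • (μ.prod Measure.count).restrict (points h)

/-- the multiple averages `(1/N) ∑_{n=1}^N ∏_j f_j (T^(a_j n) x)` -/
noncomputable def avg {X : Type*} (T : X → X) {m : ℕ} (a : Fin m → ℕ) (f : Fin m → X → ℂ) (N : ℕ) (x : X) : ℂ :=
  (1 / (N : ℂ)) * ∑ n ∈ Finset.Icc 1 N, ∏ j, f j (T^[a j * n] x)

/-- the product of the conditional expectations of the functions onto the `T`-invariant sets -/
noncomputable def lim {X : Type*} [MeasurableSpace X] (ν : Measure X) (T : X → X) {m : ℕ} (f : Fin m → X → ℂ) (x : X) : ℂ :=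
  ∏ j, (ν[f j | MeasurableSpace.invariants T]) x

open Pool.Agent.R205.TD in
lemma key {Y : Type u} [MeasurableSpace Y] [StandardBorelSpace Y] (μ : Measure Y) [IsProbabilityMeasure μ]
    (S : Y ≃ᵐ Y) (hS : MeasurePreserving S μ μ) (ξ : Y → ℕ) (hξ : Measurable ξ) (k0 : ℕ)
    (hfr : ∀ᵐ y ∂μ, FreshL S ξ k0 y) (h₀ : Y → ℕ) (hh₀ : Measurable h₀) (H : ℕ) (hh1 : ∀ y, 1 ≤ h₀ y)
    (hH : ∀ y, h₀ y ≤ H) (w : ℕ → Y → ℂ) (hwm : ∀ n, Measurable (w n)) (hwb : ∃ C, ∀ n y, ‖w n y‖ ≤ C) :
    ∀ᵐ θ ∂(Measure.infinitePi (fun _ : ℕ => coin)),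
      ∀ (m : ℕ) (a : Fin m → ℕ), StrictMono a → (∀ j, 0 < a j) →
        ∀ f : Fin m → Y × ℕ → ℂ, (∀ j, Measurable (f j)) → (∃ C, ∀ j z, ‖f j z‖ ≤ C) →
          ∀ᵐ z ∂(towerMeasure μ (heights h₀ ξ θ)),
            Tendsto (fun N : ℕ => (1 / (N : ℂ)) * ∑ n ∈ Finset.Icc 1 N, w n z.1 *
              (∏ j, f j ((tower S (heights h₀ ξ θ))^[a j * n] z) -
                lim (towerMeasure μ (heights h₀ ξ θ)) (tower S (heights h₀ ξ θ)) f z)) atTop (𝓝 0) := by
  have h1 := ae_update (all_f_w μ hS hξ hh₀ k0 hfr H hh1 hH w hwm hwb)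
  change ∀ᵐ θ ∂(Measure.infinitePi (fun _ : ℕ => coin)), _ at h1
  filter_upwards [h1] with θ hθ
  rw [rh_update] at hθ
  intro m a ha ha0 f hf hfb
  filter_upwards [hθ m a ha ha0 f hf hfb] with z hz
  have e1 : ∏ j ∈ Finset.range m, Pool.Agent.R205.TC.EI (Pool.Agent.R205.TC.tm μ (rh2 h₀ ξ θ))
      (Pool.Agent.R205.TC.tow S (rh2 h₀ ξ θ)) (Pool.Agent.R205.PC.fx f j) z =
      lim (towerMeasure μ (heights h₀ ξ θ)) (tower S (heights h₀ ξ θ)) f z := by
    unfold lim
    rw [Finset.prod_range]
    refine Finset.prod_congr rfl fun j _ => ?_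
    rw [Pool.Agent.R205.PC.fx, dif_pos j.2]
    rfl
  rw [e1] at hz
  refine hz.congr fun N => ?_
  unfold wav
  rw [mul_left_comm, ← mul_sub, one_div, Finset.mul_sum, ← Finset.sum_sub_distrib]
  congr 1
  refine Finset.sum_congr rfl fun n _ => ?_
  rw [mul_comm (lim _ _ _ _), ← mul_sub]
  congr 2
  rw [Finset.prod_range]
  refine Finset.prod_congr rfl fun j _ => ?_
  rw [Pool.Agent.R205.PC.fx, dif_pos j.2, Pool.Agent.R205.PC.ex, dif_pos j.2]
  rfl

theorem result {Y : Type u} [MeasurableSpace Y] [StandardBorelSpace Y] (μ : Measure Y) [IsProbabilityMeasure μ]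
    (S : Y ≃ᵐ Y) (hS : MeasurePreserving S μ μ) (hap : ∀ᵐ y ∂μ, ∀ n : ℕ, 0 < n → S^[n] y ≠ y)
    (ε : ℝ≥0∞) (hε : 0 < ε) :
    ∃ ξ : Y → ℕ, Measurable ξ ∧ μ {y | ξ y ≠ 0} ≤ ε ∧
      ∀ h₀ : Y → ℕ, Measurable h₀ → (∀ y, 1 ≤ h₀ y) → (∃ H, ∀ y, h₀ y ≤ H) →
      (∀ᵐ θ ∂(Measure.infinitePi (fun _ : ℕ => coin)),
        IsProbabilityMeasure (towerMeasure μ (heights h₀ ξ θ)) ∧
        Set.BijOn (tower S (heights h₀ ξ θ)) (points (heights h₀ ξ θ)) (points (heights h₀ ξ θ)) ∧
        MeasurePreserving (tower S (heights h₀ ξ θ)) (towerMeasure μ (heights h₀ ξ θ))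
          (towerMeasure μ (heights h₀ ξ θ)) ∧
        ∀ (m : ℕ) (a : Fin m → ℕ), StrictMono a → (∀ j, 0 < a j) →
          ∀ f : Fin m → Y × ℕ → ℂ, (∀ j, Measurable (f j)) → (∃ C, ∀ j z, ‖f j z‖ ≤ C) →
            ∀ᵐ z ∂(towerMeasure μ (heights h₀ ξ θ)),
              Tendsto (fun N => avg (tower S (heights h₀ ξ θ)) a f N z) atTop
                (𝓝 (lim (towerMeasure μ (heights h₀ ξ θ)) (tower S (heights h₀ ξ θ)) f z))) ∧
      ∀ w : ℕ → Y → ℂ, (∀ n, Measurable (w n)) → (∃ C, ∀ n y, ‖w n y‖ ≤ C) →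
        ∀ᵐ θ ∂(Measure.infinitePi (fun _ : ℕ => coin)),
          ∀ (m : ℕ) (a : Fin m → ℕ), StrictMono a → (∀ j, 0 < a j) →
            ∀ f : Fin m → Y × ℕ → ℂ, (∀ j, Measurable (f j)) → (∃ C, ∀ j z, ‖f j z‖ ≤ C) →
              ∀ᵐ z ∂(towerMeasure μ (heights h₀ ξ θ)),
                Tendsto (fun N : ℕ => (1 / (N : ℂ)) * ∑ n ∈ Finset.Icc 1 N, w n z.1 *
                  (∏ j, f j ((tower S (heights h₀ ξ θ))^[a j * n] z) -
                    lim (towerMeasure μ (heights h₀ ξ θ)) (tower S (heights h₀ ξ θ)) f z)) atTop (𝓝 0) := by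
  obtain ⟨ξ, k0, hξ, hξε, hfr⟩ := Pool.Agent.R205.TD.exists_labels2 μ S hS hap Pool.Agent.R205.PC.Lk
    Pool.Agent.R205.PC.Lk_mono ε hε.ne'
  refine ⟨ξ, hξ, hξε, ?_⟩
  intro h₀ hh₀ hh1 hH
  obtain ⟨H, hH⟩ := hH
  have hfr' : ∀ᵐ y ∂μ, Pool.Agent.R205.TD.FreshL S ξ k0 y := hfr
  refine ⟨?_, fun w hwm hwb => key μ S hS ξ hξ k0 hfr' h₀ hh₀ H hh1 hH w hwm hwb⟩
  filter_upwards [key μ S hS ξ hξ k0 hfr' h₀ hh₀ H hh1 hH (fun _ _ => 1) (fun _ => measurable_const)
    ⟨1, fun _ _ => by simp⟩] with θ hθ
  have hhm : Measurable (heights h₀ ξ θ) := by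
    have h1 := Pool.Agent.R205.TC.meas_rh hh₀ hξ (Function.update θ 0 false)
    rw [Pool.Agent.R205.TD.rh_update] at h1
    exact h1
  have hh1' : ∀ y, 1 ≤ heights h₀ ξ θ y := fun y => by
    have := hh1 y
    unfold heights
    omega
  have hhb' : ∀ y, heights h₀ ξ θ y ≤ H + 1 := fun y => by
    have := hH y
    have := Bool.toNat_le (θ (ξ y))
    unfold heights
    split_ifs <;> omega
  refine ⟨Pool.Agent.R205.TC.tm_prob μ hhm hh1' (H + 1) hhb', Pool.Agent.R205.TC.tow_bij S.toEquiv _ hh1',
    Pool.Agent.R205.TC.tow_mp μ hS hhm hh1', ?_⟩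
  intro m a ha ha0 f hf hfb
  filter_upwards [hθ m a ha ha0 f hf hfb] with z hz
  have h2 := hz.add_const (lim (towerMeasure μ (heights h₀ ξ θ)) (tower S (heights h₀ ξ θ)) f z)
  rw [zero_add] at h2
  refine h2.congr' ?_
  filter_upwards [eventually_gt_atTop 0] with N hN
  have hN0 : (N : ℂ) ≠ 0 := by exact_mod_cast hN.ne'
  unfold avg
  simp only [one_mul]
  rw [Finset.sum_sub_distrib, Finset.sum_const, Nat.card_Icc, Nat.add_sub_cancel, nsmul_eq_mul, mul_sub]
  field_simp
  ring

end Pool.Agent.Results.MP_cc859a_an.AlmostEveryTimeChange
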